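import Pool.Agent.Q297.BM.Uniq

/-!
There is a variety of commutative `ℓ`-bimonoids properly containing the bounded distributive
lattices in which the complemented Dedekind MacNeille completion of every member lies in the
variety and is its injective hull.

All notions are defined in `Pool.Agent.Q297.BM.Basic` (commutative `ℓ`-bimonoids, terms,
identities, homomorphisms, bounded distributive lattices) and `Pool.Agent.Q297.BM.Hull`
(complements, complemented Dedekind MacNeille completions, essential embeddings, injective
objects).
-/

namespace Pool.Agent.Results.MP_edd14c_al.ComplementedHull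

open Pool.Agent.Q297.BM

universe u

theorem result : ∃ E : Set (Tm × Tm),
    (∀ (A : Type u) [LBimonoid A], IsBDL A → Models A E) ∧
    (∃ (A : Type u) (_ : LBimonoid A), Models A E ∧ ¬ IsBDL A) ∧
    (∀ (A : Type u) [LBimonoid A], Models A E →
      (∃ (B : Type u) (_ : LBimonoid B) (e : Hom A B), IsCDM e) ∧
      ∀ (B : Type u) [LBimonoid B] (e : Hom A B), IsCDM e →
        Models B E ∧ Essential E e ∧ InjObj E B) :=
  ⟨Sig, bdl_models, not_bdl, fun _ _ hA =>
    ⟨⟨BB hA, inferInstance, ee hA, ee_cdm hA⟩, fun _ _ e h => cdm_hull hA e h⟩⟩

end Pool.Agent.Results.MP_edd14c_al.ComplementedHull
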